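import Pool.Agent.Lib.MP_6fba53_co.Odd
import Pool.Agent.Lib.MP_6fba53_co.Even
import Pool.Agent.Lib.MP_6fba53_co.Four

set_option autoImplicit false

open Pool.Agent.Lib.MP_6fba53_co

namespace Pool.Agent.Results.MP_6fba53_co.AllPlanes

theorem result : ∀ q : ℕ, IsPrimePow q → 3 ≤ q →
    (∃ A : Fin (q + 1) → Fin (q ^ 2) → Fin (q + 1 + q ^ 2 - 1),
      IsTripleArray A q (q * (q - 1)) 1 q) ∧
    (∃ A : Fin (q ^ 2) → Fin (q + 1) → Fin (q ^ 2 + (q + 1) - 1),
      IsTripleArray A q 1 (q * (q - 1)) q) := by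
  intro q hq hq3
  classical
  by_cases h4 : q = 4
  · subst h4
    exact ⟨⟨arr4, isTripleArray_arr4⟩, ⟨_, isTripleArray_arr4.transpose⟩⟩
  · obtain ⟨p, n, hp, hn, rfl⟩ := (isPrimePow_nat_iff q).1 hq
    have : Fact p.Prime := ⟨hp⟩
    have : Fintype (GaloisField p n) := Fintype.ofFinite _
    have hcard : Fintype.card (GaloisField p n) = p ^ n := by
      rw [← Nat.card_eq_fintype_card, GaloisField.card p n hn.ne']
    by_cases hp2 : p = 2
    · subst hp2
      have h5 : 4 < 2 ^ n := by
        have : n ≠ 1 := by rintro rfl; norm_num at hq3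
        have : n ≠ 2 := by rintro rfl; norm_num at h4
        calc 4 < 2 ^ 3 := by norm_num
          _ ≤ 2 ^ n := Nat.pow_le_pow_right (by norm_num) (by omega)
      obtain ⟨col, hcol⟩ := exists_good_even (F := GaloisField 2 n) (by rw [hcard]; exact h5)
      exact exists_arrays col hcol (2 ^ n) hcard
    · have h2 : (2 : GaloisField p n) ≠ 0 := by
        intro h
        have h3 : ((2 : ℕ) : GaloisField p n) = 0 := by exact_mod_cast h
        rw [CharP.cast_eq_zero_iff (GaloisField p n) p 2] at h3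
        exact hp2 ((Nat.prime_dvd_prime_iff_eq hp Nat.prime_two).1 h3)
      exact exists_arrays oddCol (oddCol_good h2) (p ^ n) hcard

end Pool.Agent.Results.MP_6fba53_co.AllPlanes
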