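import Pool.Agent.Lib.MP_6fba53_co.PGAll

set_option autoImplicit false

open Pool.Agent.Lib.MP_6fba53_co

namespace Pool.Agent.Results.MP_6fba53_co.Spaces

/-- For every prime power `q` and every `d ≥ 3`, with `r = 1 + q + ... + q^(d-1)` and `c = q^d`,
there are extremal `r × c` and `c × r` triple arrays. -/
theorem result : ∀ q d : ℕ, IsPrimePow q → 3 ≤ d →
    (∃ A : Fin (∑ i ∈ Finset.range d, q ^ i) → Fin (q ^ d) →
        Fin (∑ i ∈ Finset.range d, q ^ i + q ^ d - 1),
      IsTripleArray A (q ^ (d - 1)) (q ^ (d - 1) * (q - 1))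
        (∑ i ∈ Finset.range (d - 1), q ^ i) (q ^ (d - 1))) ∧
    (∃ A : Fin (q ^ d) → Fin (∑ i ∈ Finset.range d, q ^ i) →
        Fin (q ^ d + ∑ i ∈ Finset.range d, q ^ i - 1),
      IsTripleArray A (q ^ (d - 1)) (∑ i ∈ Finset.range (d - 1), q ^ i)
        (q ^ (d - 1) * (q - 1)) (q ^ (d - 1))) := by
  intro q d hq hd
  exact PG.arrays_of_has q d hq (by omega) (PG.has_spaces q d hq.two_le hd)

end Pool.Agent.Results.MP_6fba53_co.Spaces
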