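import Pool.Agent.Lib.MP_6fba53_co.AffEx
import Pool.Agent.Lib.MP_6fba53_co.HadEx

set_option autoImplicit false

open Pool.Agent.Lib.MP_6fba53_co

namespace Pool.Agent.Results.MP_6fba53_co.Wallis

theorem pow_facts (q n : ℕ) (hn : 2 ≤ n) :
    q ^ (n - 2) * q = q ^ (n - 1) ∧ q ^ (n - 1) * q = q ^ n ∧
      q ^ (n - 1) * q ^ (n - 1) = q ^ (2 * n - 2) ∧ q ^ (n - 1) * q ^ n = q ^ (2 * n - 1) := by
  refine ⟨?_, ?_, ?_, ?_⟩
  · rw [← pow_succ]; congr 1; omega
  · rw [← pow_succ]; congr 1; omega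
  · rw [← pow_add]; congr 1; omega
  · rw [← pow_add]; congr 1; omega

/-- Extremal triple arrays for the symmetric designs of Wallis.  The first part is about all affine
resolvable designs (`Aff m mu l cls`: point set `E`, set of parallel classes `I`, `m ≥ 2` blocks in
each class, blocks of different classes meet in `mu ≥ 1` points, two points are together in `l`
blocks); the second part is the case of the affine spaces over all finite fields; the third part
is the case of all Hadamard matrices. -/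
theorem result :
    (∀ (m mu l : ℕ) (E I : Type) (_ : Fintype E) (_ : Fintype I) (cls : I → E → Fin m),
      2 ≤ m → 1 ≤ mu → Aff m mu l cls → ∀ r c : ℕ, r = Fintype.card I * (mu * m) →
      c = mu * m * m + Fintype.card I * (mu * m * m - mu * m) →
      (∃ A : Fin r → Fin c → Fin (r + c - 1),
        IsTripleArray A (r - mu * m * l) (c + mu * m * l - r) (mu * m * l) (r - mu * m * l)) ∧
      (∃ A : Fin c → Fin r → Fin (c + r - 1),
        IsTripleArray A (r - mu * m * l) (mu * m * l) (c + mu * m * l - r) (r - mu * m * l))) ∧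
    (∀ q n : ℕ, IsPrimePow q → 2 ≤ n → ∀ r c : ℕ,
      r = q ^ (n - 1) * ∑ i ∈ Finset.range n, q ^ i →
      c = q ^ (2 * n - 1) + q ^ n - q ^ (n - 1) →
      (∃ A : Fin r → Fin c → Fin (r + c - 1),
        IsTripleArray A (q ^ (2 * n - 2)) (c - q ^ (2 * n - 2))
          (q ^ (n - 1) * ∑ i ∈ Finset.range (n - 1), q ^ i) (q ^ (2 * n - 2))) ∧
      (∃ A : Fin c → Fin r → Fin (c + r - 1),
        IsTripleArray A (q ^ (2 * n - 2)) (q ^ (n - 1) * ∑ i ∈ Finset.range (n - 1), q ^ i)
          (c - q ^ (2 * n - 2)) (q ^ (2 * n - 2)))) ∧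
    (∀ n : ℕ, 1 ≤ n → (∃ H : Matrix (Fin (4 * n)) (Fin (4 * n)) ℤ, H.IsHadamard) →
      ∀ r c : ℕ, r = 2 * n * (4 * n - 1) → c = 2 * n * (4 * n + 1) →
      (∃ A : Fin r → Fin c → Fin (r + c - 1),
        IsTripleArray A (4 * n ^ 2) (2 * n * (2 * n + 1)) (2 * n * (2 * n - 1)) (4 * n ^ 2)) ∧
      (∃ A : Fin c → Fin r → Fin (c + r - 1),
        IsTripleArray A (4 * n ^ 2) (2 * n * (2 * n - 1)) (2 * n * (2 * n + 1)) (4 * n ^ 2))) := by
  refine ⟨?_, ?_, ?_⟩
  · intro m mu l E I _ _ cls hm hmu H r c hr hc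
    refine wallis H (by omega) hmu ?_ r c hr hc
    rw [← H.bose]
    intro h
    have h2 : m * l = 1 := by omega
    have h3 := Nat.eq_one_of_mul_eq_one_right h2
    omega
  · intro q n hq hn r c hr hc
    have hq2 : 2 ≤ q := hq.two_le
    obtain ⟨E, I, _, _, cls, H, hI⟩ := PG.exists_aff q n hq hn
    obtain ⟨p1, p2, p3, p4⟩ := pow_facts q n hn
    have hS : ∑ i ∈ Finset.range n, q ^ i =
        (∑ i ∈ Finset.range (n - 1), q ^ i) + q ^ (n - 1) := by
      conv_lhs => rw [show n = n - 1 + 1 by omega]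
      rw [Finset.sum_range_succ]
    have hg : (∑ i ∈ Finset.range n, q ^ i) * (q - 1) + 1 = q ^ n := by
      have h5 : (∑ i ∈ Finset.range n, q ^ i) * (q - 1) = q ^ n - 1 := by
        rw [Nat.geomSum_eq hq2 n]
        exact Nat.div_mul_cancel (Nat.sub_one_dvd_pow_sub_one _ _)
      have : 1 ≤ q ^ n := Nat.one_le_pow _ _ (by omega)
      omega
    have hle : q ^ (n - 1) ≤ q ^ n := Nat.pow_le_pow_right (by omega) (by omega)
    have hle2 : q ^ (2 * n - 2) ≤ q ^ (2 * n - 1) := Nat.pow_le_pow_right (by omega) (by omega)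
    have h2 : Fintype.card I ≠ 2 := by
      rw [← H.bose]
      intro h
      have h2 : q * (∑ i ∈ Finset.range (n - 1), q ^ i) = 1 := by omega
      have h3 := Nat.eq_one_of_mul_eq_one_right h2
      omega
    have e1 : q ^ (n - 2) * q * (∑ i ∈ Finset.range (n - 1), q ^ i) =
        q ^ (n - 1) * ∑ i ∈ Finset.range (n - 1), q ^ i := by rw [p1]
    have e2 : r - q ^ (n - 1) * (∑ i ∈ Finset.range (n - 1), q ^ i) = q ^ (2 * n - 2) := by
      rw [hr, hS, mul_add, p3]
      omega
    have e3 : c + q ^ (n - 1) * (∑ i ∈ Finset.range (n - 1), q ^ i) - r = c - q ^ (2 * n - 2) := by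
      rw [hr, hS, mul_add, p3]
      omega
    have hc' : c = q ^ (n - 2) * q * q + Fintype.card I * (q ^ (n - 2) * q * q - q ^ (n - 2) * q) := by
      rw [hI, p1, p2, hc]
      have h5 : q ^ n - q ^ (n - 1) = q ^ (n - 1) * (q - 1) := by
        rw [Nat.mul_sub, p2, mul_one]
      rw [h5, ← mul_assoc, mul_comm _ (q ^ (n - 1)), mul_assoc]
      have h6 : (∑ i ∈ Finset.range n, q ^ i) * (q - 1) = q ^ n - 1 := by omega
      rw [h6, Nat.mul_sub, p4, mul_one]
      have h7 : q ^ (n - 1) ≤ q ^ (2 * n - 1) := Nat.pow_le_pow_right (by omega) (by omega)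
      omega
    have key := wallis H (by omega) (Nat.one_le_pow _ _ (by omega)) h2 r c
      (by rw [hI, p1, mul_comm]; exact hr) hc'
    rw [e1, e2, e3] at key
    exact key
  · rintro n hn ⟨A, hA⟩ r c hr hc
    have H := had_aff hn A hA
    have hI : Fintype.card {i : Fin (4 * n) // i ≠ ⟨0, by omega⟩} = 4 * n - 1 := by
      rw [← H.bose]
      omega
    obtain ⟨k, rfl⟩ : ∃ k, n = k + 1 := ⟨n - 1, by omega⟩
    have q1 : 2 * (k + 1) - 1 = 2 * k + 1 := by omega
    have q2 : 4 * (k + 1) - 1 = 4 * k + 3 := by omega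
    have e1 : r - (k + 1) * 2 * (2 * (k + 1) - 1) = 4 * (k + 1) ^ 2 := by
      rw [hr, q1, q2]
      apply Nat.sub_eq_of_eq_add
      ring
    have e2 : c + (k + 1) * 2 * (2 * (k + 1) - 1) - r = 2 * (k + 1) * (2 * (k + 1) + 1) := by
      rw [hc, hr, q1, q2]
      apply Nat.sub_eq_of_eq_add
      ring
    have e3 : (k + 1) * 2 * (2 * (k + 1) - 1) = 2 * (k + 1) * (2 * (k + 1) - 1) := by
      rw [mul_comm (k + 1) 2]
    have key := wallis H (by omega) hn (by rw [hI]; omega) r c (by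
        rw [hI, hr, q2]
        ring) (by
        have h5 : (k + 1) * 2 * 2 - (k + 1) * 2 = 2 * (k + 1) := by omega
        rw [hI, hc, q2, h5]
        ring)
    rw [e1, e2, e3] at key
    exact key

end Pool.Agent.Results.MP_6fba53_co.Wallis
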